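import Pool.Agent.TH231.DFM.Stmts

set_option autoImplicit false

open MeasureTheory ProbabilityTheory Filter Topology

namespace Pool.TH231.DFM

/-! ### Independent sum of two systems -/

theorem IND_mp_left (κ κ' : Type) [Fintype κ] [Fintype κ'] :
    MeasurePreserving (fun (g : κ ⊕ κ' → ℝ) (i : κ) => g (Sum.inl i)) (gam (κ ⊕ κ')) (gam κ) := by
  have h := measurePreserving_sumPiEquivProdPi (fun _ : κ ⊕ κ' => gaussianReal 0 1)
  have h2 := (measurePreserving_fst (μ := Measure.pi fun _ : κ => gaussianReal 0 1)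
    (ν := Measure.pi fun _ : κ' => gaussianReal 0 1)).comp h
  exact h2

theorem IND_mp_right (κ κ' : Type) [Fintype κ] [Fintype κ'] :
    MeasurePreserving (fun (g : κ ⊕ κ' → ℝ) (i : κ') => g (Sum.inr i)) (gam (κ ⊕ κ')) (gam κ') := by
  have h := measurePreserving_sumPiEquivProdPi (fun _ : κ ⊕ κ' => gaussianReal 0 1)
  have h2 := (measurePreserving_snd (μ := Measure.pi fun _ : κ => gaussianReal 0 1)
    (ν := Measure.pi fun _ : κ' => gaussianReal 0 1)).comp h
  exact h2

theorem IND_LZ (S T κ κ' : Type) [Fintype S] [Nonempty S] [Fintype T] [Nonempty T] [Fintype κ]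
    [Fintype κ'] (u : S → κ → ℝ) (v : T → κ' → ℝ) (g : κ ⊕ κ' → ℝ) :
    LZ (fun p : S × T => Sum.elim (u p.1) (v p.2)) (fun _ => 0) g =
      LZ u (fun _ => 0) (fun i => g (Sum.inl i)) + LZ v (fun _ => 0) (fun i => g (Sum.inr i)) := by
  unfold LZ
  rw [← Real.log_mul, Fintype.sum_mul_sum, Fintype.sum_prod_type]
  · congr 1
    refine Finset.sum_congr rfl fun s _ => Finset.sum_congr rfl fun t _ => ?_
    rw [← Real.exp_add]
    congr 1
    unfold ip
    rw [Fintype.sum_sum_type]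
    simp only [Sum.elim_inl, Sum.elim_inr]
    ring
  · exact (Finset.sum_pos (fun _ _ => Real.exp_pos _) Finset.univ_nonempty).ne'
  · exact (Finset.sum_pos (fun _ _ => Real.exp_pos _) Finset.univ_nonempty).ne'

theorem t_IND (hI : St_INT) : St_IND := by
  intro S T κ κ' _ _ _ _ _ _ u v
  obtain ⟨c1, i1, -⟩ := hI S κ u (fun _ => 0)
  obtain ⟨c2, i2, -⟩ := hI T κ' v (fun _ => 0)
  have m1 := IND_mp_left κ κ'
  have m2 := IND_mp_right κ κ'
  have e1 : ∫ g, LZ u (fun _ => 0) (fun i => g (Sum.inl i)) ∂(gam (κ ⊕ κ')) =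
      ∫ g, LZ u (fun _ => 0) g ∂(gam κ) := by
    rw [← m1.map_eq, integral_map m1.measurable.aemeasurable c1.aestronglyMeasurable]
  have e2 : ∫ g, LZ v (fun _ => 0) (fun i => g (Sum.inr i)) ∂(gam (κ ⊕ κ')) =
      ∫ g, LZ v (fun _ => 0) g ∂(gam κ') := by
    rw [← m2.map_eq, integral_map m2.measurable.aemeasurable c2.aestronglyMeasurable]
  have j1 : Integrable (fun g : κ ⊕ κ' → ℝ => LZ u (fun _ => 0) (fun i => g (Sum.inl i)))
      (gam (κ ⊕ κ')) := m1.integrable_comp_of_integrable i1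
  have j2 : Integrable (fun g : κ ⊕ κ' → ℝ => LZ v (fun _ => 0) (fun i => g (Sum.inr i)))
      (gam (κ ⊕ κ')) := m2.integrable_comp_of_integrable i2
  unfold EE
  rw [← e1, ← e2, ← integral_add j1 j2]
  refine integral_congr_ae (Eventually.of_forall fun g => ?_)
  exact IND_LZ S T κ κ' u v g

end Pool.TH231.DFM
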